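import Pool.Agent.Run7.h640.FP.Iface

/-!
Project FP of helper640: recursion lemmas.
-/

set_option autoImplicit false

open Finset
open scoped Classical
open Run7.h640.FP

namespace Run7.h973.FP

section gen

variable {α : Type*}

theorem mem_Mn {r : α → α → Prop} {S : Finset α} {m : α} :
    m ∈ Mn r S ↔ m ∈ S ∧ ∀ a ∈ S, ¬ r a m := by
  unfold Mn
  rw [mem_filter]

theorem En_succ (r : α → α → Prop) {S : Finset α} (hS : S.Nonempty) :
    En r S = ∑ m ∈ Mn r S, En r (S.erase m) := by
  unfold En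
  obtain ⟨k, hk⟩ : ∃ k, S.card = k + 1 := ⟨S.card - 1, by have := hS.card_pos; omega⟩
  rw [hk]
  show ∑ m ∈ Mn r S, Ek r k (S.erase m) = _
  refine sum_congr rfl fun m hm => ?_
  rw [card_erase_of_mem (mem_Mn.1 hm).1, hk, Nat.add_sub_cancel]

theorem Fn_succ (r : α → α → Prop) (x y : α) {S : Finset α} (hS : S.Nonempty) :
    Fn r x y S = ∑ m ∈ Mn r S, if m = y then 0 else if m = x then En r (S.erase m) else
      Fn r x y (S.erase m) := by
  unfold Fn En
  obtain ⟨k, hk⟩ : ∃ k, S.card = k + 1 := ⟨S.card - 1, by have := hS.card_pos; omega⟩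
  rw [hk]
  show ∑ m ∈ Mn r S, (if m = y then 0 else if m = x then Ek r k (S.erase m) else
    Fk r x y k (S.erase m)) = _
  refine sum_congr rfl fun m hm => ?_
  rw [card_erase_of_mem (mem_Mn.1 hm).1, hk, Nat.add_sub_cancel]

end gen

end Run7.h973.FP
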